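import Pool.Agent.Run7.h900.MX.Stm

/-!
# Piece CONV of project MX (helper900), by helper594
-/

set_option autoImplicit false
set_option linter.all false

universe u

namespace Pool.Agent.Run7.h594.MX

open Run7.h900.MX
open scoped Pointwise

variable {G : Type u} [Group G] [TopologicalSpace G]

/-- maximum condition for the closed subgroups between `A` and `B` -/
def Mx (A B : Subgroup G) : Prop :=
  ∀ F : Set (Subgroup G), F.Nonempty → (∀ H ∈ F, IsClosed (H : Set G) ∧ A ≤ H ∧ H ≤ B) →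
    ∃ M ∈ F, ∀ H ∈ F, M ≤ H → H = M

theorem mul_closed [IsTopologicalGroup G] [CompactSpace G] [T2Space G] (D H : Subgroup G) [D.Normal]
    (hD : IsClosed (D : Set G)) (hH : IsClosed (H : Set G)) : IsClosed ((D ⊔ H : Subgroup G) : Set G) := by
  rw [Subgroup.normal_mul]
  exact (hD.isCompact.mul hH.isCompact).isClosed

/-- the modular law -/
theorem modular (D H K : Subgroup G) [D.Normal] (h : D ≤ K) : (D ⊔ H) ⊓ K = D ⊔ (H ⊓ K) := by
  apply le_antisymm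
  · intro x hx
    have h1 : x ∈ ((D ⊔ H : Subgroup G) : Set G) := hx.1
    rw [Subgroup.normal_mul] at h1
    obtain ⟨d, hd, y, hy, rfl⟩ := h1
    refine mul_mem ((le_sup_left : D ≤ D ⊔ (H ⊓ K)) hd) ((le_sup_right : H ⊓ K ≤ D ⊔ (H ⊓ K)) ?_)
    refine ⟨hy, ?_⟩
    have h2 : d * y ∈ K := hx.2
    have h3 := mul_mem (inv_mem (h hd)) h2
    rwa [inv_mul_cancel_left] at h3
  · refine sup_le (le_inf le_sup_left h) ?_
    exact le_inf (inf_le_left.trans le_sup_right) inf_le_right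

/-- the other modular law -/
theorem modular' (D H K : Subgroup G) [D.Normal] (h : H ≤ K) : (D ⊔ H) ⊓ K = (D ⊓ K) ⊔ H := by
  apply le_antisymm
  · intro x hx
    have h1 : x ∈ ((D ⊔ H : Subgroup G) : Set G) := hx.1
    rw [Subgroup.normal_mul] at h1
    obtain ⟨d, hd, y, hy, rfl⟩ := h1
    refine mul_mem ((le_sup_left : (D ⊓ K) ≤ (D ⊓ K) ⊔ H) ?_) ((le_sup_right : H ≤ (D ⊓ K) ⊔ H) hy)
    refine ⟨hd, ?_⟩
    have h2 : d * y ∈ K := hx.2
    have h3 := mul_mem h2 (inv_mem (h hy))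
    rwa [mul_inv_cancel_right] at h3
  · refine sup_le (le_inf (inf_le_left.trans le_sup_left) inf_le_right) ?_
    exact le_inf le_sup_right h

/-- (1) -/
theorem mx_ext [IsTopologicalGroup G] [CompactSpace G] [T2Space G] (D B : Subgroup G) [D.Normal]
    (hD : IsClosed (D : Set G)) (hDB : D ≤ B) (h1 : Mx ⊥ D) (h2 : Mx D B) : Mx ⊥ B := by
  intro F hF hFc
  obtain ⟨_, ⟨H₀, hH₀, rfl⟩, hM₀⟩ := h2 ((fun H => D ⊔ H) '' F) (hF.image _) (by
    rintro _ ⟨H, hH, rfl⟩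
    exact ⟨mul_closed D H hD (hFc H hH).1, le_sup_left, sup_le hDB (hFc H hH).2.2⟩)
  obtain ⟨_, ⟨H₁, ⟨hH₁, he⟩, rfl⟩, hM₁⟩ := h1 ((fun H => D ⊓ H) '' {H | H ∈ F ∧ D ⊔ H = D ⊔ H₀})
    ⟨_, H₀, ⟨hH₀, rfl⟩, rfl⟩ (by
    rintro _ ⟨H, hH, rfl⟩
    exact ⟨hD.inter (hFc H hH.1).1, bot_le, inf_le_left⟩)
  refine ⟨H₁, hH₁, fun H hH hle => ?_⟩
  have e1 : D ⊔ H = D ⊔ H₀ :=
    hM₀ _ ⟨H, hH, rfl⟩ (by
      change D ⊔ H₀ ≤ D ⊔ H
      rw [← he]
      exact sup_le_sup_left hle D)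
  have e2 : D ⊓ H = D ⊓ H₁ :=
    hM₁ _ ⟨H, ⟨hH, e1⟩, rfl⟩ (inf_le_inf_left D hle)
  have e3 : H = (D ⊔ H₁) ⊓ H := by
    rw [he, ← e1]
    exact (inf_eq_right.2 le_sup_right).symm
  rw [e3, modular' D H₁ H hle, e2]
  exact sup_eq_right.2 inf_le_right

/-- (2) -/
theorem mx_sup (D P : Subgroup G) [D.Normal] (hP : IsClosed (P : Set G)) (h : Mx ⊥ P) :
    Mx D (D ⊔ P) := by
  intro F hF hFc
  obtain ⟨_, ⟨H₀, hH₀, rfl⟩, hM₀⟩ := h ((fun H => P ⊓ H) '' F) (hF.image _) (by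
    rintro _ ⟨H, hH, rfl⟩
    exact ⟨hP.inter (hFc H hH).1, bot_le, inf_le_left⟩)
  have key : ∀ H ∈ F, H = D ⊔ (P ⊓ H) := fun H hH => by
    rw [← modular D P H (hFc H hH).2.1]
    exact (inf_eq_right.2 (hFc H hH).2.2).symm
  refine ⟨H₀, hH₀, fun H hH hle => ?_⟩
  have e1 : P ⊓ H = P ⊓ H₀ := hM₀ _ ⟨H, hH, rfl⟩ (inf_le_inf_left P hle)
  rw [key H hH, e1, ← key H₀ hH₀]

/-- (3) -/
theorem mx_open [IsTopologicalGroup G] [CompactSpace G] (N : Subgroup G) (hN : IsOpen (N : Set G)) :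
    Mx N ⊤ := by
  haveI := Subgroup.quotient_finite_of_isOpen N hN
  have hfin : N.index ≠ 0 := Subgroup.index_ne_zero_of_finite
  intro F hF hFc
  obtain ⟨H₀, hH₀, hmin⟩ := WellFounded.has_min (measure (fun H : Subgroup G => H.index)).wf F hF
  refine ⟨H₀, hH₀, fun H hH hle => ?_⟩
  have h1 : H₀.index ≤ H.index := not_lt.1 (hmin H hH)
  have h2 := Subgroup.relIndex_mul_index hle
  have h3 : H₀.index ≠ 0 := by
    intro h0
    apply hfin
    rw [← Subgroup.relIndex_mul_index (hFc H₀ hH₀).2.1, h0, mul_zero]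
  have h4 : H₀.relIndex H = 1 := by
    have h5 : H.index ≠ 0 := fun h0 => h3 (by rw [← h2, h0, mul_zero])
    have h6 : H₀.relIndex H ≠ 0 := fun h0 => h3 (by rw [← h2, h0, zero_mul])
    by_contra hne
    have h7 : 2 ≤ H₀.relIndex H := by omega
    have h8 : 2 * H.index ≤ H₀.index := by rw [← h2]; exact Nat.mul_le_mul_right _ h7
    omega
  exact le_antisymm (Subgroup.relIndex_eq_one.1 h4) hle

theorem mx_of_maxClosed (P : Subgroup G) (h : MaxClosed P) : Mx ⊥ P := by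
  intro F hF hFc
  obtain ⟨_, ⟨H₀, hH₀, rfl⟩, hM₀⟩ := h ((fun H : Subgroup G => H.subgroupOf P) '' F) (hF.image _) (by
    rintro _ ⟨H, hH, rfl⟩
    exact (hFc H hH).1.preimage continuous_subtype_val)
  refine ⟨H₀, hH₀, fun H hH hle => ?_⟩
  have e1 : H.subgroupOf P = H₀.subgroupOf P :=
    hM₀ _ ⟨H, hH, rfl⟩ (Subgroup.comap_mono hle)
  rw [Subgroup.subgroupOf_inj, inf_eq_left.2 (hFc H hH).2.2, inf_eq_left.2 (hFc H₀ hH₀).2.2] at e1
  exact e1

theorem t_CONV : S_CONV.{u} := by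
  intro G _ _ _ _ _ _ h
  obtain ⟨N, s, P, hN, hNo, hP, _, hNs⟩ := h
  have key : ∀ t : Finset ℕ, t ⊆ s → (⨆ p ∈ t, P p).Normal ∧
      IsClosed ((⨆ p ∈ t, P p : Subgroup G) : Set G) ∧ Mx ⊥ (⨆ p ∈ t, P p) := by
    intro t
    induction t using Finset.induction_on with
    | empty =>
      intro _
      have h0 : (⨆ p ∈ (∅ : Finset ℕ), P p) = (⊥ : Subgroup G) := by simp
      rw [h0]
      refine ⟨inferInstance, ?_, ?_⟩
      · rw [Subgroup.coe_bot]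
        exact isClosed_singleton
      · intro F hF hFc
        obtain ⟨H, hH⟩ := hF
        refine ⟨H, hH, fun K hK hle => ?_⟩
        rw [le_bot_iff.1 (hFc K hK).2.2, le_bot_iff.1 (hFc H hH).2.2]
    | insert a t hat ih =>
      intro hts
      obtain ⟨i1, i2, i3⟩ := ih ((Finset.subset_insert _ _).trans hts)
      have e1 : (⨆ p ∈ insert a t, P p) = (⨆ p ∈ t, P p) ⊔ P a := by
        rw [Finset.iSup_insert, sup_comm]
      obtain ⟨_, b2, b3, _, b5⟩ := hP a (hts (Finset.mem_insert_self _ _))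
      haveI := i1
      haveI := b2
      rw [e1]
      refine ⟨inferInstance, mul_closed _ _ i2 b3, ?_⟩
      exact mx_ext _ _ i2 le_sup_left i3 (mx_sup _ _ b3 (mx_of_maxClosed _ b5))
  obtain ⟨k1, k2, k3⟩ := key s (Finset.Subset.refl _)
  rw [← hNs] at k1 k2 k3
  haveI := k1
  have hM := mx_ext N ⊤ k2 le_top k3 (mx_open N hNo)
  intro F hF hFc
  exact hM F hF fun H hH => ⟨hFc H hH, bot_le, le_top⟩

end Pool.Agent.Run7.h594.MX
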