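import Pool.Agent.Run7.h900.MX.Stm

/-!
# Piece COP of project MX (helper900), by helper594
-/

set_option autoImplicit false
set_option linter.all false

universe u

namespace Pool.Agent.Run7.h594.MX

open Run7.h900.MX
open scoped Pointwise

/-- fixed points of an action of which the `q`-powers are trivial -/
theorem fix {Γ : Type u} [Group Γ] {α : Type u} (ρ : Γ →* Equiv.Perm α) (A : Subgroup Γ)
    (Ω : Set α) (hfin : Ω.Finite) (hinv : ∀ a ∈ A, ∀ ω ∈ Ω, ρ a ω ∈ Ω) (q : ℕ) (hqp : q.Prime)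
    (hq : ∀ a ∈ A, ∃ k, ∀ ω ∈ Ω, ρ (a ^ q ^ k) ω = ω) (hn : ¬ q ∣ Ω.ncard) :
    ∃ ω ∈ Ω, ∀ a ∈ A, ρ a ω = ω := by
  haveI : Fact q.Prime := ⟨hqp⟩
  haveI : Finite Ω := hfin
  letI act : MulAction A Ω :=
    { smul := fun a ω => ⟨ρ (a : Γ) (ω : α), hinv a a.2 ω ω.2⟩
      one_smul := by
        rintro ⟨ω, hω⟩
        apply Subtype.ext
        change ρ ((1 : A) : Γ) ω = ω
        simp
      mul_smul := by
        rintro a b ⟨ω, hω⟩
        apply Subtype.ext
        change ρ ((a * b : A) : Γ) ω = ρ (a : Γ) (ρ (b : Γ) ω)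
        simp }
  have hsm : ∀ (a : A) (ω : Ω), ((a • ω : Ω) : α) = ρ (a : Γ) (ω : α) := fun a ω => rfl
  set R := (MulAction.toPermHom A Ω).range with hR
  have hRp : IsPGroup q R := by
    rintro ⟨_, a, rfl⟩
    obtain ⟨k, hk⟩ := hq a a.2
    refine ⟨k, ?_⟩
    apply Subtype.ext
    change (MulAction.toPermHom A Ω a) ^ q ^ k = 1
    rw [← map_pow]
    ext ω
    have h1 : ((MulAction.toPermHom A Ω (a ^ q ^ k)) ω : Ω) = (a ^ q ^ k) • ω := rfl
    rw [h1, hsm]
    have h2 := hk ω ω.2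
    simpa using h2
  obtain ⟨ω, hω⟩ := hRp.nonempty_fixed_point_of_prime_not_dvd_card Ω hn
  refine ⟨ω, ω.2, fun a ha => ?_⟩
  have h1 := hω ⟨MulAction.toPermHom A Ω ⟨a, ha⟩, ⟨⟨a, ha⟩, rfl⟩⟩
  have h2 : (((⟨a, ha⟩ : A) • ω : Ω) : α) = ω := congrArg Subtype.val h1
  exact h2

/-- a transitive action -/
theorem orb {Γ : Type u} [Group Γ] {α : Type u} (ρ : Γ →* Equiv.Perm α) (C : Subgroup Γ)
    [Finite C] (Ω : Set α) (ω₀ : α) (h1 : ∀ c ∈ C, ρ c ω₀ ∈ Ω) (h2 : ∀ ω ∈ Ω, ∃ c ∈ C, ρ c ω₀ = ω) :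
    Ω.ncard ∣ Nat.card C := by
  letI act : MulAction C α := MulAction.compHom α (ρ.comp C.subtype)
  have hsm : ∀ (c : C) (ω : α), c • ω = ρ (c : Γ) ω := fun c ω => rfl
  have h3 : MulAction.orbit C ω₀ = Ω := by
    ext ω
    constructor
    · rintro ⟨c, rfl⟩
      exact h1 c c.2
    · intro hω
      obtain ⟨c, hc, rfl⟩ := h2 ω hω
      exact ⟨⟨c, hc⟩, rfl⟩
  have h4 := Nat.card_congr (MulAction.orbitProdStabilizerEquivGroup C ω₀)
  rw [Nat.card_prod, h3] at h4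
  exact ⟨_, h4.symm⟩

section

variable {Γ : Type u} [Group Γ]

/-- conjugation of subgroups -/
def ρs : Γ →* Equiv.Perm (Subgroup Γ) :=
  (MulAction.toPermHom (MulAut Γ) (Subgroup Γ)).comp MulAut.conj

/-- conjugation of elements -/
def ρe : Γ →* Equiv.Perm Γ := (MulAut.toPerm Γ).comp MulAut.conj

theorem ρe_apply (g x : Γ) : ρe g x = g * x * g⁻¹ := rfl

theorem mem_ρs (g x : Γ) (S : Subgroup Γ) : x ∈ ρs g S ↔ g⁻¹ * x * g ∈ S := by
  change x ∈ MulAut.conj g • S ↔ _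
  rw [Subgroup.mem_pointwise_smul_iff_inv_smul_mem]
  have : (MulAut.conj g)⁻¹ • x = g⁻¹ * x * g := by
    rw [← map_inv]
    change g⁻¹ * x * (g⁻¹)⁻¹ = _
    rw [inv_inv]
  rw [this]

theorem card_ρs (g : Γ) (S : Subgroup Γ) : Nat.card (ρs g S : Subgroup Γ) = Nat.card S :=
  (Nat.card_congr (Subgroup.equivSMul (MulAut.conj g) S).toEquiv).symm

theorem nrm_iff (A S : Subgroup Γ) : Nrm A S ↔ ∀ a ∈ A, ρs a S = S := by
  constructor
  · intro h a ha
    ext x
    rw [mem_ρs]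
    constructor
    · intro hx
      have := h a ha _ hx
      simpa [mul_assoc] using this
    · intro hx
      have := h a⁻¹ (inv_mem ha) _ hx
      simpa [mul_assoc] using this
  · intro h t ht x hx
    rw [← h t ht, mem_ρs]
    simpa [mul_assoc] using hx

/-- Sylow subgroups of `B` -/
def Sy (s : ℕ) (B S : Subgroup Γ) : Prop :=
  S ≤ B ∧ Nat.card S = s ^ (Nat.card B).factorization s

theorem sy_conj {s : ℕ} {B S : Subgroup Γ} (h : Sy s B S) {g : Γ} (hg : ρs g B = B) :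
    Sy s B (ρs g S) := by
  refine ⟨?_, by rw [card_ρs]; exact h.2⟩
  intro x hx
  rw [mem_ρs] at hx
  rw [← hg, mem_ρs]
  exact h.1 hx

theorem sy_ex [Finite Γ] (s : ℕ) (hs : s.Prime) (B : Subgroup Γ) : ∃ S, Sy s B S := by
  haveI : Fact s.Prime := ⟨hs⟩
  obtain ⟨P⟩ : Nonempty (Sylow s B) := inferInstance
  refine ⟨(P : Subgroup B).map B.subtype, ?_, ?_⟩
  · exact Subgroup.map_subtype_le _
  · rw [← P.card_eq_multiplicity]
    exact (Nat.card_congr (Subgroup.equivMapOfInjective (P : Subgroup B) B.subtype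
      (Subgroup.subtype_injective B)).toEquiv).symm

theorem sy_two [Finite Γ] (s : ℕ) (hs : s.Prime) (B S₁ S₂ : Subgroup Γ) (h₁ : Sy s B S₁)
    (h₂ : Sy s B S₂) : ∃ g ∈ B, ρs g S₁ = S₂ := by
  haveI : Fact s.Prime := ⟨hs⟩
  have hc : ∀ S : Subgroup Γ, Sy s B S → Nat.card (S.subgroupOf B) = s ^ (Nat.card B).factorization s :=
    fun S h => by
      rw [← h.2]
      exact Nat.card_congr (Subgroup.subgroupOfEquivOfLe h.1).toEquiv
  let P₁ : Sylow s B := Sylow.ofCard (S₁.subgroupOf B) (hc S₁ h₁)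
  let P₂ : Sylow s B := Sylow.ofCard (S₂.subgroupOf B) (hc S₂ h₂)
  obtain ⟨g, hg⟩ := MulAction.exists_smul_eq B P₁ P₂
  refine ⟨g, g.2, ?_⟩
  apply Subgroup.eq_of_le_of_card_ge
  · intro y hy
    rw [mem_ρs] at hy
    have hyB : y ∈ B := by
      have h3 := h₁.1 hy
      have h4 := mul_mem (mul_mem g.2 h3) (inv_mem g.2)
      simpa [mul_assoc] using h4
    have h5 : (⟨y, hyB⟩ : B) ∈ (P₂ : Subgroup B) := by
      rw [← hg, Sylow.coe_subgroup_smul, Subgroup.mem_pointwise_smul_iff_inv_smul_mem, ← map_inv]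
      change (MulAut.conj g⁻¹ • (⟨y, hyB⟩ : B)) ∈ S₁.subgroupOf B
      rw [Subgroup.mem_subgroupOf]
      have h6 : ((MulAut.conj g⁻¹ • (⟨y, hyB⟩ : B) : B) : Γ) = (g : Γ)⁻¹ * y * (g : Γ) := by
        change (g : Γ)⁻¹ * y * ((g : Γ)⁻¹)⁻¹ = _
        rw [inv_inv]
      rw [h6]
      exact hy
    exact h5
  · rw [card_ρs, h₁.2, h₂.2]

/-- a nontrivial quotient which is a `q`-group -/
theorem qpart (A : Type u) [Group A] [Finite A] [Group.IsSolvable A] [Nontrivial A] :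
    ∃ (A₀ : Subgroup A) (q k : ℕ), q.Prime ∧ q ∣ Nat.card A ∧ A₀.Normal ∧ A₀ ≠ ⊤ ∧
      ∀ a : A, a ^ q ^ k ∈ A₀ := by
  have hlt : commutator A < ⊤ := Group.IsSolvable.commutator_lt_top_of_nontrivial A
  haveI : Finite (Abelianization A) := inferInstanceAs (Finite (A ⧸ commutator A))
  have hn1 : Nat.card (Abelianization A) ≠ 1 := by
    intro h
    have h1 : (commutator A).index = 1 := h
    rw [Subgroup.index_eq_one] at h1
    exact hlt.ne h1
  set n := Nat.card (Abelianization A) with hn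
  have hn0 : n ≠ 0 := Nat.card_pos.ne'
  have hq : n.minFac.Prime := Nat.minFac_prime hn1
  set q := n.minFac with hqd
  haveI : Fact q.Prime := ⟨hq⟩
  have hqn : q ∣ n := Nat.minFac_dvd n
  have hdvd : n ∣ Nat.card A := Subgroup.card_quotient_dvd_card (commutator A)
  set k := n.factorization q with hk
  set m := n / q ^ k with hm
  have hnm : q ^ k * m = n := Nat.ordProj_mul_ordCompl_eq_self n q
  have hqm : ¬ q ∣ m := Nat.not_dvd_ordCompl hq hn0
  refine ⟨((powMonoidHom m).comp (Abelianization.of (G := A))).ker, q, k, hq, hqn.trans hdvd,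
    inferInstance, ?_, ?_⟩
  · intro htop
    obtain ⟨y, hy⟩ := exists_prime_orderOf_dvd_card' (G := Abelianization A) q hqn
    obtain ⟨a, rfl⟩ := Quotient.exists_rep y
    have h1 : a ∈ ((powMonoidHom m).comp (Abelianization.of (G := A))).ker := by
      rw [htop]
      trivial
    rw [MonoidHom.mem_ker] at h1
    have h2 : (Abelianization.of a) ^ m = 1 := h1
    apply hqm
    have h3 : orderOf (Abelianization.of a) = q := hy
    rw [← h3]
    exact orderOf_dvd_of_pow_eq_one h2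
  · intro a
    rw [MonoidHom.mem_ker]
    change (Abelianization.of (a ^ q ^ k)) ^ m = 1
    rw [map_pow, ← pow_mul, hnm, hn]
    exact pow_card_eq_one'

theorem main [Finite Γ] (s : ℕ) (hs : s.Prime) (B : Subgroup Γ) : ∀ n : ℕ, ∀ A : Subgroup Γ,
    Nat.card A = n → Group.IsSolvable A → (Nat.card A).Coprime (Nat.card B) → Nrm A B →
    (∃ S, Sy s B S ∧ ∀ a ∈ A, ρs a S = S) ∧
    (∀ S₁ S₂, Sy s B S₁ → Sy s B S₂ → (∀ a ∈ A, ρs a S₁ = S₁) → (∀ a ∈ A, ρs a S₂ = S₂) →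
      ∃ c ∈ B, (∀ a ∈ A, a * c = c * a) ∧ ρs c S₁ = S₂) := by
  intro n
  induction n using Nat.strong_induction_on with
  | _ n ih =>
  intro A hAn hsol hco hAB
  rcases subsingleton_or_nontrivial A with hsub | hnt
  · have h1 : ∀ a ∈ A, a = 1 := fun a ha => by
      have := hsub.elim (⟨a, ha⟩ : A) 1
      exact congrArg Subtype.val this
    refine ⟨?_, ?_⟩
    · obtain ⟨S, hS⟩ := sy_ex s hs B
      refine ⟨S, hS, fun a ha => ?_⟩
      rw [h1 a ha, map_one]
      rfl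
    · intro S₁ S₂ e1 e2 _ _
      obtain ⟨g, hg, hgs⟩ := sy_two s hs B S₁ S₂ e1 e2
      refine ⟨g, hg, fun a ha => ?_, hgs⟩
      rw [h1 a ha, one_mul, mul_one]
  · haveI := hsol
    obtain ⟨A₀', q, k, hq, hqA, hnorm, hne, hpow⟩ := qpart A
    set A₀ : Subgroup Γ := A₀'.map A.subtype with hA₀
    have hle : A₀ ≤ A := Subgroup.map_subtype_le _
    have hcard : Nat.card A₀ = Nat.card A₀' :=
      (Nat.card_congr (Subgroup.equivMapOfInjective A₀' A.subtype
        (Subgroup.subtype_injective A)).toEquiv).symm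
    have hlt : Nat.card A₀ < n := by
      rw [hcard, ← hAn]
      have h1 : Nat.card A₀' ≤ Nat.card A := Subgroup.card_le_card_group A₀'
      refine lt_of_le_of_ne h1 fun h => hne ?_
      exact Subgroup.eq_top_of_card_eq A₀' h
    have hsol₀ : Group.IsSolvable A₀ :=
      Group.isSolvable_of_isSolvable_injective (f := Subgroup.inclusion hle)
        (Subgroup.inclusion_injective hle)
    have hco₀ : (Nat.card A₀).Coprime (Nat.card B) :=
      Nat.Coprime.coprime_dvd_left (Subgroup.card_dvd_of_le hle) hco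
    have hAB₀ : Nrm A₀ B := fun t ht => hAB t (hle ht)
    have hpow₀ : ∀ a ∈ A, a ^ q ^ k ∈ A₀ := fun a ha =>
      ⟨⟨a, ha⟩ ^ q ^ k, hpow ⟨a, ha⟩, by simp⟩
    have hcj : ∀ a ∈ A, ∀ x ∈ A₀, a * x * a⁻¹ ∈ A₀ := by
      rintro a ha _ ⟨x, hx, rfl⟩
      exact ⟨⟨a, ha⟩ * x * ⟨a, ha⟩⁻¹, hnorm.conj_mem x hx ⟨a, ha⟩, by simp⟩
    have hcj' : ∀ a ∈ A, ∀ x ∈ A₀, a⁻¹ * x * a ∈ A₀ := fun a ha x hx => by
      have := hcj a⁻¹ (inv_mem ha) x hx
      rwa [inv_inv] at this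
    have hqB : ¬ q ∣ Nat.card B := fun h =>
      Nat.not_coprime_of_dvd_of_dvd hq.one_lt hqA h hco
    obtain ⟨⟨S₀, hS₀, hS₀'⟩, ii⟩ := ih _ hlt A₀ rfl hsol₀ hco₀ hAB₀
    set C : Subgroup Γ := B ⊓ Subgroup.centralizer (A₀ : Set Γ) with hC
    have hCB : Nat.card C ∣ Nat.card B := Subgroup.card_dvd_of_le inf_le_left
    have hCc : ∀ c ∈ C, ∀ x ∈ A₀, x * c = c * x := fun c hc x hx =>
      (Subgroup.mem_centralizer_iff.1 hc.2) x hx
    have hρA : ∀ a ∈ A, ρs a B = B := (nrm_iff A B).1 hAB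
    have hρB : ∀ b ∈ B, ρs b B = B := (nrm_iff B B).1 fun t ht x hx =>
      mul_mem (mul_mem ht hx) (inv_mem ht)
    refine ⟨?_, ?_⟩
    · set Ω : Set (Subgroup Γ) := {S | Sy s B S ∧ ∀ a ∈ A₀, ρs a S = S} with hΩ
      have hdvd : Ω.ncard ∣ Nat.card C := by
        refine orb ρs C Ω S₀ ?_ ?_
        · intro c hc
          refine ⟨sy_conj hS₀ (hρB c hc.1), fun x hx => ?_⟩
          have e1 : ρs x (ρs c S₀) = ρs (x * c) S₀ := by rw [map_mul]; rfl
          have e2 : ρs (c * x) S₀ = ρs c (ρs x S₀) := by rw [map_mul]; rfl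
          rw [e1, hCc c hc x hx, e2, hS₀' x hx]
        · rintro S ⟨hS1, hS2⟩
          obtain ⟨c, hc, hc2, hc3⟩ := ii S₀ S hS₀ hS1 hS₀' hS2
          exact ⟨c, ⟨hc, Subgroup.mem_centralizer_iff.2 hc2⟩, hc3⟩
      obtain ⟨S, hS, hfix⟩ := fix ρs A Ω (Set.toFinite _) (by
        rintro a ha S ⟨hS1, hS2⟩
        refine ⟨sy_conj hS1 (hρA a ha), fun x hx => ?_⟩
        have e1 : ρs x (ρs a S) = ρs (a * (a⁻¹ * x * a)) S := by
          have : a * (a⁻¹ * x * a) = x * a := by group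
          rw [this, map_mul]
          rfl
        rw [e1, map_mul]
        change ρs a (ρs (a⁻¹ * x * a) S) = ρs a S
        rw [hS2 _ (hcj' a ha x hx)]) q hq
        (fun a ha => ⟨k, fun S hS => hS.2 _ (hpow₀ a ha)⟩)
        (fun h => hqB ((h.trans hdvd).trans hCB))
      exact ⟨S, hS.1, hfix⟩
    · intro S₁ S₂ h1 h2 h1A h2A
      obtain ⟨c₀, hc₀, hc₀2, hc₀3⟩ := ii S₁ S₂ h1 h2 (fun a ha => h1A a (hle ha))
        (fun a ha => h2A a (hle ha))
      let st : Subgroup Γ :=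
        { carrier := {c | ρs c S₁ = S₁}
          mul_mem' := by
            intro a b ha hb
            change ρs (a * b) S₁ = S₁
            rw [map_mul]
            change ρs a (ρs b S₁) = S₁
            rw [show ρs b S₁ = S₁ from hb, show ρs a S₁ = S₁ from ha]
          one_mem' := by
            change ρs 1 S₁ = S₁
            rw [map_one]
            rfl
          inv_mem' := by
            intro a ha
            change ρs a⁻¹ S₁ = S₁
            conv_lhs => rw [← show ρs a S₁ = S₁ from ha]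
            have : ρs a⁻¹ (ρs a S₁) = ρs (a⁻¹ * a) S₁ := by rw [map_mul]; rfl
            rw [this, inv_mul_cancel, map_one]
            rfl }
      have hst : ∀ c, c ∈ st ↔ ρs c S₁ = S₁ := fun c => Iff.rfl
      set Z : Set Γ := {c | c ∈ C ∧ ρs c S₁ = S₂} with hZ
      have hc₀C : c₀ ∈ C := ⟨hc₀, Subgroup.mem_centralizer_iff.2 hc₀2⟩
      have hZe : Z = (fun x => c₀ * x) '' ((C ⊓ st : Subgroup Γ) : Set Γ) := by
        ext c
        constructor
        · rintro ⟨hc, hcs⟩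
          refine ⟨c₀⁻¹ * c, ⟨(show c₀⁻¹ * c ∈ C from mul_mem (inv_mem hc₀C) hc), ?_⟩, by simp⟩
          change ρs (c₀⁻¹ * c) S₁ = S₁
          rw [map_mul]
          change ρs c₀⁻¹ (ρs c S₁) = S₁
          rw [hcs, ← hc₀3]
          have : ρs c₀⁻¹ (ρs c₀ S₁) = ρs (c₀⁻¹ * c₀) S₁ := by rw [map_mul]; rfl
          rw [this, inv_mul_cancel, map_one]
          rfl
        · rintro ⟨x, ⟨hx1, hx2⟩, rfl⟩
          refine ⟨mul_mem hc₀C hx1, ?_⟩
          change ρs (c₀ * x) S₁ = S₂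
          rw [map_mul]
          change ρs c₀ (ρs x S₁) = S₂
          rw [show ρs x S₁ = S₁ from hx2, hc₀3]
      have hZc : Z.ncard ∣ Nat.card B := by
        rw [hZe, Set.ncard_image_of_injective _ (mul_right_injective c₀)]
        exact Subgroup.card_dvd_of_le (inf_le_left.trans inf_le_left)
      obtain ⟨c, hc, hfix⟩ := fix ρe A Z (Set.toFinite _) (by
        rintro a ha c ⟨hc, hcs⟩
        rw [ρe_apply]
        refine ⟨⟨hAB a ha c hc.1, ?_⟩, ?_⟩
        · change a * c * a⁻¹ ∈ Subgroup.centralizer (A₀ : Set Γ)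
          rw [Subgroup.mem_centralizer_iff]
          intro x hx
          have e1 := hCc c hc (a⁻¹ * x * a) (hcj' a ha x hx)
          calc x * (a * c * a⁻¹) = a * ((a⁻¹ * x * a) * c) * a⁻¹ := by group
            _ = a * (c * (a⁻¹ * x * a)) * a⁻¹ := by rw [e1]
            _ = a * c * a⁻¹ * x := by group
        · have e1 : ρs (a * c * a⁻¹) S₁ = ρs a (ρs c (ρs a⁻¹ S₁)) := by
            rw [map_mul, map_mul]
            rfl
          rw [e1, h1A a⁻¹ (inv_mem ha), hcs, h2A a ha]) q hq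
        (fun a ha => ⟨k, fun c hc => by
          rw [ρe_apply, hCc c hc.1 _ (hpow₀ a ha), mul_inv_cancel_right]⟩)
        (fun h => hqB (h.trans hZc))
      refine ⟨c, hc.1.1, fun a ha => ?_, hc.2⟩
      have e1 := hfix a ha
      rw [ρe_apply] at e1
      calc a * c = (a * c * a⁻¹) * a := by group
        _ = c * a := by rw [e1]

end

theorem t_COP : S_COP.{u} := by
  intro Γ _ _ A B hsol hco hAB s hs
  obtain ⟨S, hS, hSA⟩ := (main s hs B _ A rfl hsol hco hAB).1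
  haveI : Fact s.Prime := ⟨hs⟩
  refine ⟨S, hS.1, IsPGroup.of_card hS.2, ?_, (nrm_iff A S).2 hSA⟩
  have h1 : Nat.card S * S.relIndex B = Nat.card B := by
    have h2 := Subgroup.card_mul_index (S.subgroupOf B)
    rw [Nat.card_congr (Subgroup.subgroupOfEquivOfLe hS.1).toEquiv] at h2
    exact h2
  have h0 : Nat.card B ≠ 0 := Nat.card_pos.ne'
  intro hdvd
  obtain ⟨m, hm⟩ := hdvd
  rw [hm, hS.2] at h1
  have h3 : s ^ ((Nat.card B).factorization s + 1) ∣ Nat.card B := ⟨m, by rw [pow_succ, mul_assoc]; exact h1.symm⟩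
  exact Nat.pow_succ_factorization_not_dvd h0 hs h3

end Pool.Agent.Run7.h594.MX
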